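import Pool.Agent.Y208.LQ.Stm
import Pool.Agent.Helper702.SF.P_D_simple
import Pool.Agent.Helper702.SF.P_D_center
import Pool.Agent.Helper702.SF.P_D_rep
import Pool.Agent.Helper702.SF.P_exists_lam
import Pool.Agent.Helper702.SF.P_exists_poly_hom
import Pool.Agent.Helper702.SF.P_lam_orth

/-! Part I for Lie algebras. -/

set_option autoImplicit false

namespace Y208.LQ

open Pool.SF

attribute [local instance 100] LieRing.ofAssociativeRing

theorem code_injective {n : ℕ} : Function.Injective (code : FreeMagma (Fin n) → ℕ) := by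
  intro x
  induction x using FreeMagma.rec with
  | of i =>
    intro y h
    cases y with
    | of j =>
      simp only [code] at h
      congr 1
      exact Fin.ext (by omega)
    | mul y z =>
      simp only [code] at h
      omega
  | mul x x' ih ih' =>
    intro y h
    cases y with
    | of j =>
      simp only [code] at h
      omega
    | mul y z =>
      simp only [code] at h
      have h1 : Nat.pair (code x) (code x') = Nat.pair (code y) (code z) := by omega
      have h2 := Nat.pair_eq_pair.1 h1
      rw [ih h2.1, ih' h2.2]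

/-- values of Lie monomials and homomorphisms of rings -/
theorem map_lev {A1 A2 : Type} [Ring A1] [Ring A2] {n : ℕ} (χ : A1 →+* A2) (c : Fin n → A1)
    (w : FreeMagma (Fin n)) : χ (lev c w) = lev (fun i => χ (c i)) w := by
  induction w using FreeMagma.rec with
  | of i => rfl
  | mul x y ihx ihy =>
    simp only [lev]
    rw [LieRing.of_associative_ring_bracket, LieRing.of_associative_ring_bracket, map_sub, map_mul,
      map_mul, ihx, ihy]

/-- values of Lie monomials and homomorphisms of Lie algebras -/
theorem map_lev' {F L1 L2 : Type} [Field F] [LieRing L1] [LieAlgebra F L1] [LieRing L2]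
    [LieAlgebra F L2] {n : ℕ} (χ : L1 →ₗ⁅F⁆ L2) (c : Fin n → L1)
    (w : FreeMagma (Fin n)) : χ (lev c w) = lev (fun i => χ (c i)) w := by
  induction w using FreeMagma.rec with
  | of i => rfl
  | mul x y ihx ihy =>
    simp only [lev]
    rw [LieHom.map_lie, ihx, ihy]

theorem commute_lev {A1 : Type} [Ring A1] {n : ℕ} (c : Fin n → A1) (τ : A1)
    (h : ∀ i, Commute (c i) τ) (w : FreeMagma (Fin n)) : Commute (lev c w) τ := by
  induction w using FreeMagma.rec with
  | of i => exact h i
  | mul x y ihx ihy =>
    simp only [lev]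
    rw [LieRing.of_associative_ring_bracket]
    exact (ihx.mul_left ihy).sub_left (ihy.mul_left ihx)

theorem LRB_span {F L : Type} [Field F] [LieRing L] [LieAlgebra F L] {n : ℕ}
    {a : Fin n → L} {Bs : Set (FreeMagma (Fin n))}
    {nf : FreeMagma (Fin n) → ℕ × List (ℤ × FreeMagma (Fin n))} {f : ℕ → ℕ × List (ℤ × ℕ)}
    (h : LRB F a Bs nf f) : ⊤ ≤ Submodule.span F (Set.range (fun w : Bs => lev a w.1)) := by
  have hw : ∀ w : FreeMagma (Fin n), lev a w ∈
      Submodule.span F (Set.range (fun w : Bs => lev a w.1)) := by
    intro w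
    have h2 : ((nf w).2.map (fun p => (p.1 : F) • lev a p.2)).sum ∈
        Submodule.span F (Set.range (fun w : Bs => lev a w.1)) := by
      refine AddSubmonoid.list_sum_mem _ ?_
      intro x hx
      obtain ⟨p, hp, rfl⟩ := List.mem_map.1 hx
      exact Submodule.smul_mem _ _ (Submodule.subset_span ⟨⟨p.2, h.hB w p hp⟩, rfl⟩)
    rw [← h.h1 w] at h2
    have h3 := Submodule.smul_mem _ (((nf w).1 : F)⁻¹) h2
    rwa [smul_smul, inv_mul_cancel₀ (h.hd w), one_smul] at h3
  let K : LieSubalgebra F L :=
    { Submodule.span F (Set.range (lev a)) with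
      lie_mem' := by
        intro x y hx hy
        change x ∈ Submodule.span F (Set.range (lev a)) at hx
        change y ∈ Submodule.span F (Set.range (lev a)) at hy
        change ⁅x, y⁆ ∈ Submodule.span F (Set.range (lev a))
        induction hx using Submodule.span_induction with
        | mem x hx =>
          obtain ⟨w, rfl⟩ := hx
          induction hy using Submodule.span_induction with
          | mem y hy =>
            obtain ⟨w', rfl⟩ := hy
            exact Submodule.subset_span ⟨w * w', rfl⟩
          | zero => rw [lie_zero]; exact zero_mem _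
          | add y z _ _ hy hz => rw [lie_add]; exact add_mem hy hz
          | smul r y _ hy => rw [lie_smul]; exact Submodule.smul_mem _ _ hy
        | zero => rw [zero_lie]; exact zero_mem _
        | add y z _ _ hy hz => rw [add_lie]; exact add_mem hy hz
        | smul r y _ hy => rw [smul_lie]; exact Submodule.smul_mem _ _ hy }
  have hK : LieSubalgebra.lieSpan F L (Set.range a) ≤ K := by
    rw [LieSubalgebra.lieSpan_le]
    rintro _ ⟨i, rfl⟩
    exact Submodule.subset_span ⟨FreeMagma.of i, rfl⟩
  intro x _
  have hx : x ∈ LieSubalgebra.lieSpan F L (Set.range a) := by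
    rw [h.gen]; exact LieSubalgebra.mem_top x
  have hx' : x ∈ Submodule.span F (Set.range (lev a)) := hK hx
  refine Submodule.span_le.2 ?_ hx'
  rintro _ ⟨w, rfl⟩
  exact hw w

theorem lalg_aux (H1 : S_PBWB) (H3 : S_LHOM) {F L : Type} [Field F] [LieRing L] [LieAlgebra F L]
    {n : ℕ} (a : Fin n → L) (Bs : Set (FreeMagma (Fin n)))
    (nf : FreeMagma (Fin n) → ℕ × List (ℤ × FreeMagma (Fin n))) (f : ℕ → ℕ × List (ℤ × ℕ))
    (h : LRB F a Bs nf f) (rel : ℕ → List (Bool × List (GD n)))
    (hrel : ∀ (A' : Type) [Ring A'] [Algebra F A'] (c : GD n → A'),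
      (∀ i, ev c (rel i) = 0) ↔
      (∀ w, ((nf w).1 : F) • lev (fun i => c (.inl i)) w =
        ((nf w).2.map (fun p => (p.1 : F) • lev (fun i => c (.inl i)) p.2)).sum) ∧
      (∀ i, Commute (c (.inl i)) (c (.inr 0))) ∧
      (∀ ws : List (FreeMagma (Fin n)), (∀ w ∈ ws, w ∈ Bs) →
        (ws.map code).Pairwise (· ≤ ·) → ∀ m : ℕ,
        c (.inr 1) * (ws.map (lev (fun i => c (.inl i)))).prod * c (.inr 0) ^ m * c (.inr 2) =
          if sqc (Encodable.encode (ws.map code)) m then 1 else 0)) :
    IsSimpleRing (CC F rel) ∧
    (∀ z : CC F rel, (∀ c, z * c = c * z) → ∃ r : F, algebraMap F (CC F rel) r = z) ∧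
    (∀ (K : Type) [Fintype K] [DecidableEq K], ∃ tp tp' : K → FreeAlgebra F (GD n),
      Orth (fun j => RingQuot.mkAlgHom F (relC F rel) (tp j))
        (fun j => RingQuot.mkAlgHom F (relC F rel) (tp' j))) ∧
    ∃ φ : L →ₗ⁅F⁆ CC F rel, Function.Injective φ := by
  classical
  -- the basis of `L`
  let _ : LinearOrder Bs := LinearOrder.lift' (fun w : Bs => code w.1)
    (code_injective.comp Subtype.val_injective)
  have hle : ∀ w w' : Bs, w ≤ w' ↔ code w.1 ≤ code w'.1 := fun _ _ => Iff.rfl
  let b : Module.Basis Bs F L := Module.Basis.mk h.li (LRB_span h)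
  have hb : ∀ w, b w = lev a w.1 := fun w => by rw [Module.Basis.mk_apply]
  obtain ⟨β, hβ⟩ := H1 F L Bs b
  have hne : Nontrivial (UniversalEnvelopingAlgebra F L) := by
    refine ⟨⟨β ⟨[], List.Pairwise.nil⟩, 0, β.ne_zero _⟩⟩
  -- the functional
  let J : Type := {l : List Bs // l.Pairwise (· ≤ ·)}
  have henc : Function.Injective
      (fun l : {l : List Bs // l.Pairwise (· ≤ ·)} => Encodable.encode (l.1.map (fun w : Bs => code w.1))) := by
    intro l l' hl
    have h1 : l.1.map (fun w : Bs => code w.1) = l'.1.map (fun w : Bs => code w.1) :=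
      Encodable.encode_injective hl
    exact Subtype.ext (List.map_injective_iff.2 (code_injective.comp Subtype.val_injective) h1)
  obtain ⟨Λ, hτ, hΛβ, hlam⟩ := exists_lam β _ henc
  -- the relations
  let π : FreeAlgebra F (GD n) →ₐ[F] CC F rel := RingQuot.mkAlgHom F (relC F rel)
  let c : GD n → CC F rel := fun g => π (FreeAlgebra.ι F g)
  have hev : ∀ r : List (Bool × List (GD n)), ev c r = π (ev (FreeAlgebra.ι F) r) := by
    intro r
    unfold ev
    rw [map_list_sum, List.map_map]
    congr 1
    refine List.map_congr_left fun p _ => ?_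
    simp only [Function.comp]
    rw [map_mul, map_list_prod, List.map_map]
    congr 1
    split_ifs
    · rw [map_one]
    · rw [map_neg, map_one]
  have h0 : ∀ i, ev c (rel i) = 0 := by
    intro i
    rw [hev]
    have : π (ev (FreeAlgebra.ι F) (rel i)) = π 0 :=
      RingQuot.mkAlgHom_rel F (s := relC F rel) ⟨i, rfl, rfl⟩
    rw [this, map_zero]
  obtain ⟨r1, r2, r3⟩ := (hrel (CC F rel) c).1 h0
  obtain ⟨θ, hθ⟩ := H3 F L n a Bs nf f h (CC F rel) (fun i => c (.inl i)) r1
  have hθlev : ∀ w, θ (lev a w) = lev (fun i => c (.inl i)) w := by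
    intro w
    rw [map_lev']
    congr 1
    funext i
    exact hθ i
  let Φ : UniversalEnvelopingAlgebra F L →ₐ[F] CC F rel := UniversalEnvelopingAlgebra.lift F θ
  have hΦ : ∀ x, Φ (UniversalEnvelopingAlgebra.ι F x) = θ x :=
    fun x => UniversalEnvelopingAlgebra.lift_ι_apply F θ x
  have hΦβ : ∀ l, Φ (β l) = (l.1.map (fun w : Bs => lev (fun i => c (.inl i)) w.1)).prod := by
    intro l
    rw [hβ, map_list_prod, List.map_map]
    congr 1
    refine List.map_congr_left fun w _ => ?_
    simp only [Function.comp]
    rw [hΦ, hb, hθlev]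
  have hcomm : ∀ x, Commute (Φ x) (c (.inr 0)) := by
    intro x
    have hx : x ∈ Submodule.span F (Set.range β) := β.mem_span x
    induction hx using Submodule.span_induction with
    | mem x hx =>
      obtain ⟨l, rfl⟩ := hx
      rw [hΦβ]
      apply Commute.list_prod_left
      intro y hy
      obtain ⟨w, -, rfl⟩ := List.mem_map.1 hy
      exact commute_lev _ _ r2 _
    | zero => rw [map_zero]; exact Commute.zero_left _
    | add x y _ _ hx hy => rw [map_add]; exact hx.add_left hy
    | smul r x _ hx => rw [map_smul]; exact hx.smul_left r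
  obtain ⟨ψ, hψC, hψX⟩ := exists_poly_hom Φ (c (.inr 0)) hcomm
  -- the functional in the algebra
  have key : ∀ (m : ℕ) (x : UniversalEnvelopingAlgebra F L),
      c (.inr 1) * ψ (Polynomial.monomial m x) * c (.inr 2) =
      algebraMap F _ (Λ.lam (Polynomial.monomial m x)) := by
    intro m x
    have hx : x ∈ Submodule.span F (Set.range β) := β.mem_span x
    induction hx using Submodule.span_induction with
    | mem x hx =>
      obtain ⟨l, rfl⟩ := hx
      have e1 : ψ (Polynomial.monomial m (β l)) =
          ((l.1.map Subtype.val).map (lev (fun i => c (.inl i)))).prod * (c (.inr 0)) ^ m := by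
        rw [← Polynomial.C_mul_X_pow_eq_monomial, map_mul, map_pow, hψX, hψC, hΦβ, List.map_map]
        rfl
      have hs : ((l.1.map Subtype.val).map code).Pairwise (· ≤ ·) := by
        rw [List.map_map, List.pairwise_map]
        exact l.2
      have e2 := r3 (l.1.map Subtype.val) (by
        intro w hw
        obtain ⟨w', -, rfl⟩ := List.mem_map.1 hw
        exact w'.2) hs m
      rw [e1, hlam, ← mul_assoc, e2, List.map_map]
      show (if sqc (Encodable.encode (l.1.map (fun w : Bs => code w.1))) m then 1 else 0) = _
      split_ifs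
      · simp
      · simp
    | zero => simp
    | add x y _ _ hx hy =>
      rw [map_add, map_add, mul_add, add_mul, hx, hy, map_add, map_add]
    | smul r x _ hx =>
      have e2 : Polynomial.monomial m (r • x) = r • Polynomial.monomial m x := by
        rw [Polynomial.smul_monomial]
      rw [e2, map_smul, map_smul, mul_smul_comm, smul_mul_assoc, hx, smul_eq_mul, map_mul,
        Algebra.smul_def]
  have hDl : ∀ p, c (.inr 1) * ψ p * c (.inr 2) = algebraMap F _ (Λ.lam p) := by
    intro p
    induction p using Polynomial.induction_on' with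
    | add p q hp hq => rw [map_add, mul_add, add_mul, hp, hq, map_add, map_add]
    | monomial m x => exact key m x
  -- injectivity
  obtain ⟨M, _, _, ρ, u, v, hρ, huv⟩ := D_rep (Cp := Polynomial (UniversalEnvelopingAlgebra F L)) Λ.lam
  let c' : GD n → Module.End F M :=
    Sum.elim (fun i => ρ (Polynomial.C (UniversalEnvelopingAlgebra.ι F (a i)))) ![ρ Polynomial.X, u, v]
  have hc' : ∀ w, lev (fun i => c' (.inl i)) w =
      ρ (Polynomial.C (UniversalEnvelopingAlgebra.ι F (lev a w))) := by
    intro w
    rw [map_lev' (UniversalEnvelopingAlgebra.ι F) a w]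
    have := map_lev ((ρ : Polynomial (UniversalEnvelopingAlgebra F L) →+* Module.End F M).comp
      (Polynomial.C : UniversalEnvelopingAlgebra F L →+* _))
      (fun i => UniversalEnvelopingAlgebra.ι F (a i)) w
    exact this.symm
  have hρβ : ∀ l : {l : List Bs // l.Pairwise (· ≤ ·)}, ρ (Polynomial.C (β l)) =
      (l.1.map (fun w : Bs => lev (fun i => c' (.inl i)) w.1)).prod := by
    intro l
    rw [hβ, map_list_prod, map_list_prod, List.map_map, List.map_map]
    congr 1
    refine List.map_congr_left fun w _ => ?_
    simp only [Function.comp]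
    rw [hc', hb]
  have hrel' : ∀ i, ev c' (rel i) = 0 := by
    rw [hrel (Module.End F M) c']
    refine ⟨?_, ?_, ?_⟩
    · intro w
      have h2 := congrArg (fun x => ρ (Polynomial.C (UniversalEnvelopingAlgebra.ι F x))) (h.h1 w)
      let χ : L →ₗ[F] Module.End F M :=
        ρ.toLinearMap.comp (Polynomial.CAlgHom.toLinearMap.comp
          ((UniversalEnvelopingAlgebra.ι F : L →ₗ⁅F⁆ UniversalEnvelopingAlgebra F L) :
            L →ₗ[F] UniversalEnvelopingAlgebra F L))
      have hχ : ∀ x, χ x = ρ (Polynomial.C (UniversalEnvelopingAlgebra.ι F x)) := fun x => rfl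
      rw [← hχ, ← hχ, map_smul, map_list_sum, List.map_map] at h2
      rw [hc', ← hχ, h2]
      congr 1
      refine List.map_congr_left fun p _ => ?_
      simp only [Function.comp]
      rw [map_smul, hχ, hc']
    · intro i
      exact (Polynomial.commute_X _).symm.map ρ
    · intro ws hws hs m
      lift ws to List Bs using hws
      rw [List.map_map, List.pairwise_map] at hs
      have h3 := huv (Polynomial.monomial m (β ⟨ws, hs⟩))
      rw [hlam, ← Polynomial.C_mul_X_pow_eq_monomial, map_mul, map_pow, hρβ] at h3
      show u * ((ws.map Subtype.val).map (lev (fun i => c' (.inl i)))).prod * ρ Polynomial.X ^ m * v = _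
      rw [List.map_map, List.map_map, mul_assoc u]
      refine h3.trans ?_
      show algebraMap F (Module.End F M)
        (if sqc (Encodable.encode (ws.map (fun w : Bs => code w.1))) m then 1 else 0) =
        (if sqc (Encodable.encode (ws.map (fun w : Bs => code w.1))) m then 1 else 0)
      split_ifs
      · exact map_one _
      · exact map_zero _
  let θ' : CC F rel →ₐ[F] Module.End F M :=
    RingQuot.liftAlgHom F ⟨FreeAlgebra.lift F c', by
      rintro p q ⟨i, rfl, rfl⟩
      rw [map_zero]
      have e1 : FreeAlgebra.lift F c' (ev (FreeAlgebra.ι F) (rel i)) = ev c' (rel i) := by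
        unfold ev
        rw [map_list_sum, List.map_map]
        congr 1
        apply List.map_congr_left
        intro p _
        simp only [Function.comp_apply, map_mul]
        rw [map_list_prod, List.map_map]
        congr 1
        · split_ifs <;> simp
        · congr 1
          apply List.map_congr_left
          intro g _
          simp
      rw [e1]
      exact hrel' i⟩
  have hθ' : ∀ g : GD n, θ' (c g) = c' g := by
    intro g
    simp only [θ', c, π]
    rw [RingQuot.liftAlgHom_mkAlgHom_apply, FreeAlgebra.lift_ι_apply]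
  have hθ'lev : ∀ w, θ' (lev (fun i => c (.inl i)) w) = lev (fun i => c' (.inl i)) w := by
    intro w
    have e1 := map_lev (θ' : CC F rel →+* Module.End F M) (fun i => c (.inl i)) w
    have e2 : (fun i => (θ' : CC F rel →+* Module.End F M) (c (.inl i))) =
        fun i => c' (.inl i) := funext fun i => hθ' _
    rw [e2] at e1
    exact e1
  have hC : ∀ x, θ' (ψ (Polynomial.C x)) = ρ (Polynomial.C x) := by
    intro x
    rw [hψC]
    have hx : x ∈ Submodule.span F (Set.range β) := β.mem_span x
    induction hx using Submodule.span_induction with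
    | mem x hx =>
      obtain ⟨l, rfl⟩ := hx
      rw [hΦβ, hρβ, map_list_prod, List.map_map]
      congr 1
      refine List.map_congr_left fun w _ => ?_
      exact hθ'lev _
    | zero => simp
    | add x y _ _ hx hy => rw [map_add, map_add, hx, hy, map_add, map_add]
    | smul r x _ hx =>
      rw [map_smul, map_smul, hx, ← map_smul, Polynomial.smul_C]
  have hall : ∀ p, θ' (ψ p) = ρ p := by
    intro p
    induction p using Polynomial.induction_on' with
    | add p q hp hq => rw [map_add, map_add, map_add, hp, hq]
    | monomial m x =>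
      rw [← Polynomial.C_mul_X_pow_eq_monomial, map_mul, map_mul, map_mul, map_pow, map_pow,
        map_pow, hC, hψX, hθ']
      rfl
  have hinj : Function.Injective ψ := by
    intro p q hpq
    apply hρ
    rw [← hall, ← hall, hpq]
  -- generation
  have hDg : Algebra.adjoin F (Set.range ψ ∪ {c (.inr 1), c (.inr 2)}) = ⊤ := by
    rw [eq_top_iff]
    rintro x -
    obtain ⟨y, rfl⟩ := RingQuot.mkAlgHom_surjective F (relC F rel) x
    have h : (⊤ : Subalgebra F (FreeAlgebra F (GD n))) ≤
        (Algebra.adjoin F (Set.range ψ ∪ {c (.inr 1), c (.inr 2)})).comap π := by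
      rw [← FreeAlgebra.adjoin_range_ι, Algebra.adjoin_le_iff]
      rintro _ ⟨g, rfl⟩
      rw [SetLike.mem_coe, Subalgebra.mem_comap]
      apply Algebra.subset_adjoin
      rcases g with i | i
      · refine Or.inl ⟨Polynomial.C (UniversalEnvelopingAlgebra.ι F (a i)), ?_⟩
        rw [hψC, hΦ, hθ]
      · fin_cases i
        · exact Or.inl ⟨_, hψX⟩
        · exact Or.inr (Or.inl rfl)
        · exact Or.inr (Or.inr rfl)
    exact h (Algebra.mem_top (x := y))
  have hnt : Nontrivial (CC F rel) := hinj.nontrivial
  refine ⟨D_simple Λ ψ _ _ hDl hDg, fun z hz => D_center Λ ψ _ _ hDl hDg z hz, ?_, θ, ?_⟩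
  · intro K _ _
    obtain ⟨m, m', α, hmm⟩ := lam_orth β Λ hτ hΛβ K
    refine ⟨fun j => FreeAlgebra.ι F (.inr 0) ^ (m j) * FreeAlgebra.ι F (.inr 2),
      fun i => α • (FreeAlgebra.ι F (.inr 1) * FreeAlgebra.ι F (.inr 0) ^ (m' i)), ?_⟩
    intro i j
    have h2 := hDl (Polynomial.X ^ (m' i + m j))
    rw [pow_add, map_mul, map_pow, map_pow, hψX] at h2
    have h3 := hmm i j
    show π (α • (FreeAlgebra.ι F (.inr 1) * FreeAlgebra.ι F (.inr 0) ^ (m' i))) *
      π (FreeAlgebra.ι F (.inr 0) ^ (m j) * FreeAlgebra.ι F (.inr 2)) = _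
    rw [map_smul, map_mul, map_mul, map_pow, map_pow, smul_mul_assoc]
    have h4 : π (FreeAlgebra.ι F (.inr 1)) * π (FreeAlgebra.ι F (.inr 0)) ^ m' i *
        (π (FreeAlgebra.ι F (.inr 0)) ^ m j * π (FreeAlgebra.ι F (.inr 2))) =
        algebraMap F _ (Λ.lam (Polynomial.X ^ (m' i + m j))) := by
      rw [pow_add, ← h2]
      simp only [mul_assoc, c]
    rw [h4, Algebra.smul_def, ← map_mul, h3]
    split_ifs
    · exact map_one _
    · exact map_zero _
  · rw [injective_iff_map_eq_zero]
    intro x hx
    have h1 : ψ (Polynomial.C (UniversalEnvelopingAlgebra.ι F x)) = 0 := by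
      rw [hψC, hΦ, hx]
    have h2 : Polynomial.C (UniversalEnvelopingAlgebra.ι F x) = 0 := hinj (by rw [h1, map_zero])
    have h3 : UniversalEnvelopingAlgebra.ι F x = 0 := by
      apply Polynomial.C_injective
      rw [h2, map_zero]
    have hli : LinearIndependent F (fun w : Bs => UniversalEnvelopingAlgebra.ι F (b w)) := by
      have h4 := β.linearIndependent.comp (fun w : Bs => (⟨[w], List.pairwise_singleton _ _⟩ :
        {l : List Bs // l.Pairwise (· ≤ ·)})) (by
          intro w w' hww
          have := congrArg Subtype.val hww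
          simpa using this)
      have h5 : (β ∘ fun w : Bs => (⟨[w], List.pairwise_singleton _ _⟩ :
        {l : List Bs // l.Pairwise (· ≤ ·)})) = fun w : Bs => UniversalEnvelopingAlgebra.ι F (b w) := by
        funext w
        simp only [Function.comp]
        rw [hβ]
        simp
      rw [h5] at h4
      exact h4
    rw [linearIndependent_iff] at hli
    have h6 : Finsupp.linearCombination F (fun w : Bs => UniversalEnvelopingAlgebra.ι F (b w))
        (b.repr x) = 0 := by
      rw [← h3]
      conv_rhs => rw [← b.linearCombination_repr x]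
      rw [Finsupp.linearCombination_apply, Finsupp.linearCombination_apply, Finsupp.sum,
        Finsupp.sum, map_sum]
      refine Finset.sum_congr rfl fun i _ => ?_
      rw [map_smul]
    have h7 := hli _ h6
    exact b.repr.map_eq_zero_iff.1 h7

theorem t_LALG (H1 : S_PBWB) (H2 : S_LREL) (H3 : S_LHOM) : S_LALG := by
  intro F L _ _ _ n a Bs nf f h
  exact lalg_aux H1 H3 a Bs nf f h _ (fun A' _ _ c => H2 F n Bs nf f h.hf A' c)

end Y208.LQ
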