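import Pool.Agent.Y208.LQ.Stm

/-! Basic identities in an algebra with the structure `SwA`. -/

set_option autoImplicit false

namespace Y208.LQ

variable {F B : Type} [Field F] [Ring B] [Algebra F B] (w : SwA F B)

theorem q_add : q w + w.n * w.n' = 1 := w.one

theorem q_eq : q w = 1 - w.n * w.n' := by rw [← q_add w]; abel

theorem s_q : w.s * q w = w.s := by
  rw [q_eq, mul_sub, mul_one, ← mul_assoc, w.sn, zero_mul, sub_zero]

theorem q_s : q w * w.s = w.s := by
  rw [q_eq, sub_mul, one_mul, mul_assoc, w.ns, mul_zero, sub_zero]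

theorem q_s' : q w * w.s' = w.s' := by
  rw [q_eq, sub_mul, one_mul, mul_assoc, w.ns', mul_zero, sub_zero]

theorem s'_q : w.s' * q w = w.s' := by
  rw [q_eq, mul_sub, mul_one, ← mul_assoc, w.sn', zero_mul, sub_zero]

theorem q_e : q w * w.e = w.e := by
  rw [q_eq, sub_mul, one_mul, mul_assoc, w.ne, mul_zero, sub_zero]

theorem e'_q : w.e' * q w = w.e' := by
  rw [q_eq, mul_sub, mul_one, ← mul_assoc, w.en, zero_mul, sub_zero]

theorem q_n : q w * w.n = 0 := by
  rw [q_eq, sub_mul, one_mul, mul_assoc, w.nn, mul_one, sub_self]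

theorem n'_q : w.n' * q w = 0 := by
  rw [q_eq, mul_sub, mul_one, ← mul_assoc, w.nn, one_mul, sub_self]

theorem q_q : q w * q w = q w := by
  nth_rewrite 2 [q_eq]
  rw [mul_sub, mul_one, ← mul_assoc, q_n, zero_mul, sub_zero]

theorem s'_s : w.s' * w.s = q w := w.ss

theorem e'_φ (a : B) : w.e' * w.φ a = a * w.e' := by
  have h : w.e' * w.φ a = w.e' * w.φ a * (w.e * w.e' + w.s * w.s' + w.n * w.n') := by
    rw [w.one, mul_one]
  rw [h, mul_add, mul_add]
  have h1 : w.e' * w.φ a * (w.e * w.e') = a * w.e' := by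
    rw [← mul_assoc, mul_assoc w.e', w.φe, ← mul_assoc, w.ee, one_mul]
  have h2 : w.e' * w.φ a * (w.s * w.s') = 0 := by
    rw [← mul_assoc, mul_assoc w.e', w.φs, ← mul_assoc, w.es, zero_mul, zero_mul]
  have h3 : w.e' * w.φ a * (w.n * w.n') = 0 := by
    rw [← mul_assoc, mul_assoc w.e', w.φn, ← mul_assoc, w.en, zero_mul, zero_mul]
  rw [h1, h2, h3, add_zero, add_zero]

theorem n'_φ (a : B) : w.n' * w.φ a = w.φ (w.φ a) * w.n' := by
  have h : w.n' * w.φ a = w.n' * w.φ a * (w.e * w.e' + w.s * w.s' + w.n * w.n') := by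
    rw [w.one, mul_one]
  rw [h, mul_add, mul_add]
  have h1 : w.n' * w.φ a * (w.e * w.e') = 0 := by
    rw [← mul_assoc, mul_assoc w.n', w.φe, ← mul_assoc, w.ne, zero_mul, zero_mul]
  have h2 : w.n' * w.φ a * (w.s * w.s') = 0 := by
    rw [← mul_assoc, mul_assoc w.n', w.φs, ← mul_assoc, w.ns, zero_mul, zero_mul]
  have h3 : w.n' * w.φ a * (w.n * w.n') = w.φ (w.φ a) * w.n' := by
    rw [← mul_assoc, mul_assoc w.n', w.φn, ← mul_assoc, w.nn, one_mul]
  rw [h1, h2, h3, zero_add, zero_add]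

theorem φ_q (a : B) : w.φ a * q w = q w * w.φ a := by
  rw [q_eq, mul_sub, sub_mul, mul_one, one_mul, ← mul_assoc, w.φn, mul_assoc, mul_assoc, n'_φ]

theorem s'_φ (a : B) : w.s' * w.φ a = w.φ a * w.s' := by
  have h : w.s' * w.φ a = w.s' * w.φ a * (w.e * w.e' + w.s * w.s' + w.n * w.n') := by
    rw [w.one, mul_one]
  rw [h, mul_add, mul_add]
  have h1 : w.s' * w.φ a * (w.e * w.e') = 0 := by
    rw [← mul_assoc, mul_assoc w.s', w.φe, ← mul_assoc, w.se, zero_mul, zero_mul]
  have h2 : w.s' * w.φ a * (w.s * w.s') = w.φ a * w.s' := by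
    rw [← mul_assoc, mul_assoc w.s', w.φs, ← mul_assoc, s'_s, ← φ_q, mul_assoc, q_s']
  have h3 : w.s' * w.φ a * (w.n * w.n') = 0 := by
    rw [← mul_assoc, mul_assoc w.s', w.φn, ← mul_assoc, w.sn', zero_mul, zero_mul]
  rw [h1, h2, h3, zero_add, add_zero]

theorem ph_zero (a : B) : ph w 0 a = a := rfl

theorem ph_succ (k : ℕ) (a : B) : ph w (k + 1) a = w.φ (ph w k a) := rfl

theorem ph_succ' (k : ℕ) (a : B) : ph w (k + 1) a = ph w k (w.φ a) := by
  induction k with
  | zero => rfl
  | succ k ih => rw [ph_succ, ih, ← ph_succ]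

theorem ph_add (i j : ℕ) (a : B) : ph w (i + j) a = ph w i (ph w j a) := by
  induction i with
  | zero => rw [zero_add]; rfl
  | succ i ih => rw [add_right_comm, ph_succ, ph_succ, ih]

theorem φ_s_pow (a : B) (m : ℕ) : w.φ a * w.s ^ m = w.s ^ m * w.φ a := by
  induction m with
  | zero => rw [pow_zero, mul_one, one_mul]
  | succ m ih => rw [pow_succ, ← mul_assoc, ih, mul_assoc, w.φs, mul_assoc]

/-- The shift of `a` is carried through the operation building `t`. -/
theorem φ_U (t : OT) (a : B) : w.φ a * U w t = U w t * ph w t.h a := by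
  induction t generalizing a with
  | hole => simp [U, OT.h, ph]
  | nu m =>
    show w.φ a * (w.s ^ m * q w) = w.s ^ m * q w * w.φ a
    rw [← mul_assoc, φ_s_pow, mul_assoc, φ_q, mul_assoc]
  | lf m =>
    show w.φ a * (w.s ^ m * w.e) = w.s ^ m * w.e * a
    rw [← mul_assoc, φ_s_pow, mul_assoc, w.φe, mul_assoc]
  | node l r ihl ihr =>
    show w.φ a * (w.n * U w l * ph w l.h (U w r)) =
      w.n * U w l * ph w l.h (U w r) * ph w (l.h + r.h) a
    rw [← mul_assoc, ← mul_assoc, w.φn, mul_assoc w.n, ihl, ph_add]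
    simp only [mul_assoc]
    rw [← map_mul, ← map_mul, ihr]

theorem ph_U (t : OT) (k : ℕ) (a : B) :
    ph w (k + 1) a * ph w k (U w t) = ph w k (U w t) * ph w (k + t.h) a := by
  rw [ph_succ', ← map_mul, φ_U, map_mul, ph_add]

theorem ty_length (t : OT) : t.ty.length = t.h := by
  induction t with
  | hole => rfl
  | nu m => rfl
  | lf m => rfl
  | node l r ihl ihr => simp [OT.ty, OT.h, ihl, ihr]

theorem UL_cons (t : OT) (G : List OT) : UL w (t :: G) = U w t * ph w t.h (UL w G) := rfl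

theorem UL_nil : UL w [] = 1 := rfl

theorem tyL_cons (t : OT) (G : List OT) : tyL (t :: G) = t.ty ++ tyL G := rfl

theorem U_hole : U w .hole = 1 := rfl

theorem U_nu (m : ℕ) : U w (.nu m) = w.s ^ m * q w := rfl

theorem U_lf (m : ℕ) : U w (.lf m) = w.s ^ m * w.e := rfl

theorem U_node (l r : OT) : U w (.node l r) = w.n * U w l * ph w l.h (U w r) := rfl

theorem Deep_mono (d : ℕ) (t : OT) (h : OT.Deep (d + 1) t) : OT.Deep d t := by
  induction d generalizing t with
  | zero => cases t <;> trivial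
  | succ d ih =>
    cases t with
    | hole => exact h
    | nu m => exact (Nat.le_succ _).trans h
    | lf m => trivial
    | node l r => exact ⟨ih l h.1, ih r h.2⟩

theorem Deep_mono' {d d' : ℕ} (hd : d ≤ d') (t : OT) (h : OT.Deep d' t) : OT.Deep d t := by
  induction hd with
  | refl => exact h
  | step _ ih => exact ih (Deep_mono _ _ h)

end Y208.LQ
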