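import Pool.Agent.Helper702.SF.MainD
import Pool.Agent.Helper702.SF.PartID

/-!
# LQ: embedding Lie algebras with recursive basis in simple finitely presented Lie algebras
(MP_4d37d6_al, Q2).  Definitions and exact statements (as Props) of the independent tasks.
-/

set_option autoImplicit false

open scoped TensorProduct

namespace Y208.LQ

open Pool.SF

attribute [local instance 100] LieRing.ofAssociativeRing

/-! ## 1. The algebra `B` of operations on sequences of trees -/

/-- The operations on infinite sequences of binary trees whose leaves carry natural numbers: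
`e` inserts the leaf `0` in front, `s` increments the label of the first tree if it is a leaf (and
kills it otherwise), `n` replaces the first two trees by the tree with these two branches; `e'`,
`s'`, `n'` are the partial inverses, `φ` is the shift: it applies an operation to the sequence
behind the first tree. -/
structure SwA (F B : Type) [Field F] [Ring B] [Algebra F B] where
  e : B
  e' : B
  s : B
  s' : B
  n : B
  n' : B
  φ : B →ₐ[F] B
  ee : e' * e = 1
  nn : n' * n = 1
  one : e * e' + s * s' + n * n' = 1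
  ss : s' * s = e * e' + s * s'
  en : e' * n = 0
  ne : n' * e = 0
  es : e' * s = 0
  se : s' * e = 0
  ns : n' * s = 0
  sn' : s' * n = 0
  sn : s * n = 0
  ns' : n' * s' = 0
  φe : ∀ a, φ a * e = e * a
  φs : ∀ a, φ a * s = s * φ a
  φn : ∀ a, φ a * n = n * φ (φ a)
  gen : Algebra.adjoin F (({e, e', s, s', n, n'} : Set B) ∪ φ '' {e, e', s, s', n, n'}) = ⊤

/-- the six letters -/
inductive X6 : Type
  | e | e' | s | s' | n | n'
deriving DecidableEq

instance : Fintype X6 := ⟨{.e, .e', .s, .s', .n, .n'}, by intro x; cases x <;> decide⟩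

/-- the letters `x = (x, false)` and `φ x = (x, true)` -/
abbrev G12 : Type := X6 × Bool

/-- a letter in the free algebra -/
noncomputable def lt (F : Type) [Field F] (x : X6) : FreeAlgebra F G12 := FreeAlgebra.ι F (x, false)

/-- the shift on the free algebra -/
noncomputable def phT (F : Type) [Field F] : FreeAlgebra F G12 →ₐ[F] FreeAlgebra F G12 :=
  FreeAlgebra.lift F (fun g => if g.2 = false then FreeAlgebra.ι F (g.1, true)
    else lt F .n' * FreeAlgebra.ι F (g.1, true) * lt F .n)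

/-- names of the relations -/
inductive BI : Type
  | ee | nn | one | ss | en | ne | es | se | ns | sn' | sn | ns'
  | pe (g : G12) | ps (g : G12) | pn (g : G12)
deriving DecidableEq, Fintype

/-- left hand sides -/
noncomputable def bL (F : Type) [Field F] : BI → FreeAlgebra F G12
  | .ee => lt F .e' * lt F .e
  | .nn => lt F .n' * lt F .n
  | .one => lt F .e * lt F .e' + lt F .s * lt F .s' + lt F .n * lt F .n'
  | .ss => lt F .s' * lt F .s
  | .en => lt F .e' * lt F .n
  | .ne => lt F .n' * lt F .e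
  | .es => lt F .e' * lt F .s
  | .se => lt F .s' * lt F .e
  | .ns => lt F .n' * lt F .s
  | .sn' => lt F .s' * lt F .n
  | .sn => lt F .s * lt F .n
  | .ns' => lt F .n' * lt F .s'
  | .pe g => phT F (FreeAlgebra.ι F g) * lt F .e
  | .ps g => phT F (FreeAlgebra.ι F g) * lt F .s
  | .pn g => phT F (FreeAlgebra.ι F g) * lt F .n

/-- right hand sides -/
noncomputable def bR (F : Type) [Field F] : BI → FreeAlgebra F G12
  | .ee => 1
  | .nn => 1
  | .one => 1
  | .ss => lt F .e * lt F .e' + lt F .s * lt F .s'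
  | .en => 0
  | .ne => 0
  | .es => 0
  | .se => 0
  | .ns => 0
  | .sn' => 0
  | .sn => 0
  | .ns' => 0
  | .pe g => lt F .e * FreeAlgebra.ι F g
  | .ps g => lt F .s * phT F (FreeAlgebra.ι F g)
  | .pn g => lt F .n * phT F (phT F (FreeAlgebra.ι F g))

/-- the relations: `bL r = bR r` and their images under the shift -/
def BAr (F : Type) [Field F] (p q : FreeAlgebra F G12) : Prop :=
  ∃ r : BI × Bool, p = (if r.2 then phT F (bL F r.1) else bL F r.1) ∧
    q = (if r.2 then phT F (bR F r.1) else bR F r.1)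

/-- the finitely presented algebra -/
abbrev BA (F : Type) [Field F] : Type := RingQuot (BAr F)

/-- TASK J1a -/
def S_J1a : Prop := ∀ (F : Type) [Field F], FinPres F (BA F) ∧ Nonempty (SwA F (BA F))

/-- TASK J1b -/
def S_J1b : Prop := ∀ (F : Type) [Field F], Nontrivial (BA F)

/-! ## 2. Words -/

/-- open trees: a hole, a leaf of unknown label incremented by `m`, the leaf with label `m` -/
inductive OT : Type
  | hole | nu (m : ℕ) | lf (m : ℕ) | node (l r : OT)
deriving DecidableEq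

/-- the types of the open places -/
def OT.ty : OT → List Bool
  | .hole => [true]
  | .nu _ => [false]
  | .lf _ => []
  | .node l r => l.ty ++ r.ty

/-- number of open places -/
def OT.h : OT → ℕ
  | .hole => 1
  | .nu _ => 1
  | .lf _ => 0
  | .node l r => l.h + r.h

/-- no open place at depth less than `d` -/
def OT.Deep : ℕ → OT → Prop
  | 0, _ => True
  | _ + 1, .hole => False
  | d + 1, .nu m => d + 1 ≤ m
  | _ + 1, .lf _ => True
  | d + 1, .node l r => OT.Deep d l ∧ OT.Deep d r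

/-- all labels are smaller than `M` -/
def OT.Lt (M : ℕ) : OT → Prop
  | .hole => True
  | .nu _ => True
  | .lf m => m < M
  | .node l r => OT.Lt M l ∧ OT.Lt M r

/-- fill all open places with the leaf with label `M` -/
def OT.fill (M : ℕ) : OT → OT
  | .hole => .lf M
  | .nu m => .lf (m + M)
  | .lf m => .lf m
  | .node l r => .node (l.fill M) (r.fill M)

/-- types of the open places of a forest -/
def tyL (G : List OT) : List Bool := G.flatMap OT.ty

section words
variable {F B : Type} [Field F] [Ring B] [Algebra F B] (w : SwA F B)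

/-- powers of the shift -/
def ph : ℕ → B →ₐ[F] B
  | 0 => AlgHom.id F B
  | k + 1 => w.φ.comp (ph k)

/-- the projection onto the sequences whose first tree is a leaf -/
def q : B := w.e * w.e' + w.s * w.s'

/-- the operation building the tree `t` -/
def U : OT → B
  | .hole => 1
  | .nu m => w.s ^ m * q w
  | .lf m => w.s ^ m * w.e
  | .node l r => w.n * U l * ph w l.h (U r)

/-- the operation building a forest -/
def UL : List OT → B
  | [] => 1
  | t :: G => U w t * ph w t.h (UL G)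

/-- the left inverses of the operations building closed trees -/
def U' : OT → B
  | .lf m => w.e' * w.s' ^ m
  | .node l r => U' r * U' l * w.n'
  | _ => 1

/-- the span of the operations building forests of type `τ` without open places at depth less
than `d` and with at least `d` trees -/
def Wd (τ : List Bool) (d : ℕ) : Submodule F B :=
  Submodule.span F {z | ∃ G : List OT, tyL G = τ ∧ (∀ t ∈ G, OT.Deep d t) ∧ d ≤ G.length ∧
    z = UL w G}

end words

/-- TASK ACT -/
def S_ACT : Prop := ∀ (F B : Type) [Field F] [Ring B] [Algebra F B] (w : SwA F B) (T : B),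
  ∃ ℓ : ℕ, ∀ (d : ℕ) (G : List OT), (∀ t ∈ G, OT.Deep (d + ℓ) t) → d + ℓ ≤ G.length →
    T * UL w G ∈ Wd w (tyL G) d

/-- TASK DEEP -/
def S_DEEP : Prop := ∀ (F B : Type) [Field F] [Ring B] [Algebra F B] (w : SwA F B) (T : B),
  T ≠ 0 → ∀ d K : ℕ, ∃ G : List OT, (∀ t ∈ G, OT.Deep d t) ∧ G.length = K ∧ T * UL w G ≠ 0

/-- TASK CLO: closed trees -/
def S_CLO : Prop := ∀ (F B : Type) [Field F] [Ring B] [Algebra F B] (w : SwA F B),
  (∀ t t' : OT, t.h = 0 → t'.h = 0 → U' w t * U w t' = if t = t' then 1 else 0) ∧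
  (∀ (M : ℕ) (G : List OT), UL w G * U w (.lf M) ^ (tyL G).length = ((G.map (OT.fill M)).map (U w)).prod)
    ∧ (∀ (M : ℕ) (G G' : List OT), (∀ t ∈ G, OT.Lt M t) → (∀ t ∈ G', OT.Lt M t) → tyL G = tyL G' →
      G.map (OT.fill M) = G'.map (OT.fill M) → G = G')

/-- TASK ISO -/
def S_ISO : Prop := ∀ (F B : Type) [Field F] [Ring B] [Algebra F B] (w : SwA F B)
  (J : TwoSidedIdeal B) (τ : List Bool) (X : B), X ∈ J → X ≠ 0 → X ∈ Wd w τ 0 → (1 : B) ∈ J

/-- TASK CTR -/
def S_CTR : Prop := ∀ (F B : Type) [Field F] [Ring B] [Algebra F B] [Nontrivial B] (_ : SwA F B)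
  (z : B), (∀ c, z * c = c * z) → ∃ r : F, algebraMap F B r = z

/-- final statement about `SwA` -/
def S_SIMP : Prop := ∀ (F B : Type) [Field F] [Ring B] [Algebra F B] [Nontrivial B] (_ : SwA F B),
  IsSimpleRing B ∧ ∀ z : B, (∀ c, z * c = c * z) → ∃ r : F, algebraMap F B r = z

/-! ## 3. Vanishing of the first cyclic homology -/

/-- A swindle. -/
structure Sw (F R : Type) [Field F] [Ring R] [Algebra F R] where
  e : R
  e' : R
  s : R
  s' : R
  Φ : R →ₗ[F] R
  ee : e' * e = 1
  es : e' * s = 0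
  se : s' * e = 0
  Φl : ∀ a, s' * s * Φ a = Φ a
  Φr : ∀ a, Φ a * (s' * s) = Φ a
  Φm : ∀ a b, Φ (a * b) = Φ a * Φ b
  Φe : ∀ a, Φ a = e * a * e' + s * Φ a * s'

/-- Perfectness and vanishing of the first cyclic homology. -/
def Cyc (F R : Type) [Field F] [Ring R] [Algebra F R] : Prop :=
  Submodule.span F {z : R | ∃ a b : R, z = a * b - b * a} = ⊤ ∧
  ∀ (M : Type) [AddCommGroup M] [Module F M] (f : R →ₗ[F] R →ₗ[F] M),
    (∀ a b, f a b = - f b a) → (∀ a b c, f (a * b) c = f a (b * c) + f b (c * a)) →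
    ∃ g : R →ₗ[F] M, ∀ a b, f a b = g (a * b - b * a)

def S_CYC : Prop := ∀ (F R : Type) [Field F] [Ring R] [Algebra F R], Nonempty (Sw F R) → Cyc F R

/-! ## 4. Steinberg Lie algebras -/

/-- A Lie algebra is finitely presented. -/
def LieFP (F g : Type) [Field F] [LieRing g] [LieAlgebra F g] : Prop :=
  ∃ (n : ℕ) (R : Finset (FreeLieAlgebra F (Fin n))) (φ : FreeLieAlgebra F (Fin n) →ₗ⁅F⁆ g),
    Function.Surjective φ ∧
      φ.ker = LieSubmodule.lieSpan F (FreeLieAlgebra F (Fin n)) (R : Set (FreeLieAlgebra F (Fin n)))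

/-- TASK STW -/
def S_STW : Prop := ∀ (F X g : Type) [Field F] [LieRing g] [LieAlgebra F g]
  (T : Option X → Fin 5 → Fin 5 → g),
  (∀ x y i j k l, i ≠ j → k ≠ l → j ≠ k → i ≠ l → ⁅T x i j, T y k l⁆ = 0) →
  (∀ x i j k, i ≠ j → j ≠ k → i ≠ k → ⁅T x i j, T none j k⁆ = T x i k) →
  (∀ x i j k, i ≠ j → j ≠ k → i ≠ k → ⁅T none i j, T x j k⁆ = T x i k) →
  (∀ x y i j j' k, i ≠ j → j ≠ k → i ≠ k → i ≠ j' → j' ≠ k →
    ⁅T x i j, T y j k⁆ = ⁅T x i j', T y j' k⁆) →
  ∃ E : Fin 5 → Fin 5 → FreeAlgebra F X →ₗ[F] g,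
    (∀ i j, i ≠ j → E i j 1 = T none i j) ∧
    (∀ x i j, i ≠ j → E i j (FreeAlgebra.ι F x) = T (some x) i j) ∧
    (∀ i j k, i ≠ j → j ≠ k → i ≠ k → ∀ a b, ⁅E i j a, E j k b⁆ = E i k (a * b)) ∧
    (∀ i j k l, i ≠ j → k ≠ l → j ≠ k → i ≠ l → ∀ a b, ⁅E i j a, E k l b⁆ = 0)

/-- TASK STK -/
def S_STK : Prop := ∀ (F R g : Type) [Field F] [Ring R] [Algebra F R] [LieRing g] [LieAlgebra F g]
  (E : Fin 5 → Fin 5 → R →ₗ[F] g),
  Cyc F R →
  (∀ i j k, i ≠ j → j ≠ k → i ≠ k → ∀ a b, ⁅E i j a, E j k b⁆ = E i k (a * b)) →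
  (∀ i j k l, i ≠ j → k ≠ l → j ≠ k → i ≠ l → ∀ a b, ⁅E i j a, E k l b⁆ = 0) →
  LieSubalgebra.lieSpan F g {x | ∃ i j, i ≠ j ∧ ∃ a, x = E i j a} = ⊤ →
  ∀ π : g →ₗ⁅F⁆ Matrix (Fin 5) (Fin 5) R,
    (∀ i j, i ≠ j → ∀ a, π (E i j a) = Matrix.single i j a) → Function.Bijective π

/-- TASK STF -/
def S_STF : Prop := ∀ (F R : Type) [Field F] [Ring R] [Algebra F R], Cyc F R → FinPres F R →
  LieFP F (Matrix (Fin 5) (Fin 5) R)

/-- TASK GLS -/
def S_GLS : Prop := ∀ (F R : Type) [Field F] [Ring R] [Algebra F R] [IsSimpleRing R],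
  (∀ z : R, (∀ c, z * c = c * z) → ∃ r : F, algebraMap F R r = z) →
  Submodule.span F {z : R | ∃ a b : R, z = a * b - b * a} = ⊤ →
  LieFP F (Matrix (Fin 5) (Fin 5) R) →
  ∃ (h : Type) (_ : LieRing h) (_ : LieAlgebra F h) (π : Matrix (Fin 5) (Fin 5) R →ₗ⁅F⁆ h),
    Function.Surjective π ∧ (∀ X, π X = 0 ↔ ∃ r : F, X = algebraMap F (Matrix (Fin 5) (Fin 5) R) r) ∧
    LieFP F h ∧ LieAlgebra.IsSimple F h

/-! ## 5. Tensor products, and the centre of the finitely presented simple algebra -/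

/-- TASK TFP -/
def S_TFP : Prop := ∀ (F B S : Type) [Field F] [Ring B] [Algebra F B] [Ring S] [Algebra F S],
  FinPres F B → FinPres F S → FinPres F (B ⊗[F] S)

/-- TASK CEN: `Pool.SF.partII` with the additional information that the centre is `F`. -/
def S_CEN : Prop := ∀ (F : Type) [Field F] (G : Type) [Fintype G] [DecidableEq G] [Primcodable G]
  (rel : ℕ → List (Bool × List G)), Computable rel → IsSimpleRing (CC F rel) →
  (∀ z : CC F rel, (∀ c, z * c = c * z) → ∃ r : F, algebraMap F (CC F rel) r = z) →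
  (∀ (K : Type) [Fintype K] [DecidableEq K], ∃ tp tp' : K → FreeAlgebra F G,
      Orth (fun j => RingQuot.mkAlgHom F (relC F rel) (tp j))
        (fun j => RingQuot.mkAlgHom F (relC F rel) (tp' j))) →
  ∃ (B : Type) (_ : Ring B) (_ : Algebra F B), FinPres F B ∧ IsSimpleRing B ∧
    (∀ z : B, (∀ c, z * c = c * z) → ∃ r : F, algebraMap F B r = z) ∧
    ∃ φ : CC F rel →ₐ[F] B, Function.Injective φ

/-! ## 6. Lie algebras with a recursive basis -/

/-- the Gödel number of a nonassociative word -/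
def code {n : ℕ} : FreeMagma (Fin n) → ℕ
  | .of i => 2 * i
  | .mul x y => 2 * Nat.pair (code x) (code y) + 1

/-- the value of a Lie monomial -/
def lev {L : Type} [LieRing L] {n : ℕ} (a : Fin n → L) : FreeMagma (Fin n) → L
  | .of i => a i
  | .mul x y => ⁅lev a x, lev a y⁆

/-- A recursive basis of a Lie algebra: the Lie monomials `w ∈ Bs` are a basis, `Bs` is recursive,
and an algorithm `nf` writes every monomial as a linear combination of monomials of `Bs`. -/
structure LRB (F : Type) {L : Type} [Field F] [LieRing L] [LieAlgebra F L] {n : ℕ} (a : Fin n → L)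
    (Bs : Set (FreeMagma (Fin n))) (nf : FreeMagma (Fin n) → ℕ × List (ℤ × FreeMagma (Fin n)))
    (f : ℕ → ℕ × List (ℤ × ℕ)) : Prop where
  gen : LieSubalgebra.lieSpan F L (Set.range a) = ⊤
  comp : ComputablePred (fun k : ℕ => ∃ w ∈ Bs, code w = k)
  compf : Computable f
  hf : ∀ w, f (code w) = ((nf w).1, (nf w).2.map (fun p => (p.1, code p.2)))
  li : LinearIndependent F (fun w : Bs => lev a w.1)
  hd : ∀ w, ((nf w).1 : F) ≠ 0
  hB : ∀ w, ∀ p ∈ (nf w).2, p.2 ∈ Bs
  h1 : ∀ w, ((nf w).1 : F) • lev a w = ((nf w).2.map (fun p => (p.1 : F) • lev a p.2)).sum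

/-- formal sums of signed words (`true` is the sign `+`) -/
abbrev FS (n : ℕ) : Type := List (Bool × List (Fin n))

def fmul {n : ℕ} (p q : FS n) : FS n := p.flatMap (fun x => q.map (fun y => (x.1 == y.1, x.2 ++ y.2)))

def fneg {n : ℕ} (p : FS n) : FS n := p.map (fun x => (!x.1, x.2))

/-- the associative expansion of the Lie monomial with Gödel number `k` (`[]` if `k` is not a
Gödel number) -/
def EC (n k : ℕ) : FS n :=
  if _hk : k % 2 = 0 then (if h : k / 2 < n then [(true, [⟨k / 2, h⟩])] else [])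
  else
    fmul (EC n (Nat.unpair (k / 2)).1) (EC n (Nat.unpair (k / 2)).2) ++
      fneg (fmul (EC n (Nat.unpair (k / 2)).2) (EC n (Nat.unpair (k / 2)).1))
termination_by k
decreasing_by
  all_goals
    have h1 := Nat.unpair_left_le (k / 2)
    have h2 := Nat.unpair_right_le (k / 2)
    omega

/-- relators of the first kind: `d w - Σ z b`, from the expansions -/
def rel1L {n : ℕ} (e : FS n) (p : ℕ × List (ℤ × FS n)) : List (Bool × List (GD n)) :=
  (((List.replicate p.1 e).flatten) ++ p.2.flatMap (fun q =>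
    (List.replicate q.1.natAbs (if q.1 < 0 then q.2 else fneg q.2)).flatten)).map
      (fun x => (x.1, x.2.map .inl))

/-- relators of the third kind: `u w τ^m v - (0 or 1)`, from the expansion of `w` -/
def rel3L {n : ℕ} (e : FS n) (c m : ℕ) : List (Bool × List (GD n)) :=
  e.map (fun x => (x.1, .inr 1 :: (x.2.map .inl ++ (List.replicate m (.inr 0) ++ [.inr 2])))) ++
    (if sqc c m then [(false, [])] else [])

/-- the expansion of a product of Lie monomials -/
def ECL (n : ℕ) (cs : List ℕ) : FS n := cs.foldr (fun c acc => fmul (EC n c) acc) [(true, [])]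

open Classical in
/-- all relators -/
noncomputable def relL (n : ℕ) (Bc : ℕ → Prop) (f : ℕ → ℕ × List (ℤ × ℕ)) (i : ℕ) :
    List (Bool × List (GD n)) :=
  match (Encodable.decode i : Option (ℕ ⊕ (Fin n ⊕ (List ℕ × ℕ)))) with
  | none => []
  | some (.inl k) => if EC n k = [] then [] else
      rel1L (EC n k) ((f k).1, (f k).2.map (fun p => (p.1, EC n p.2)))
  | some (.inr (.inl k)) => rel2 k
  | some (.inr (.inr p)) => if (∀ c ∈ p.1, Bc c) ∧ p.1.Pairwise (· ≤ ·) then
      rel3L (ECL n p.1) (Encodable.encode p.1) p.2 else []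

/-- TASK RCOMP -/
def S_RCOMP : Prop := ∀ (n : ℕ) (Bc : ℕ → Prop) (f : ℕ → ℕ × List (ℤ × ℕ)),
  ComputablePred Bc → Computable f → Computable (relL n Bc f)

/-- TASK PBWB -/
def S_PBWB : Prop := ∀ (K : Type) [Field K] (L : Type) [LieRing L] [LieAlgebra K L] (I : Type)
    [LinearOrder I] (b : Module.Basis I K L),
  ∃ β : Module.Basis {l : List I // l.Pairwise (· ≤ ·)} K (UniversalEnvelopingAlgebra K L),
    ∀ l, β l = (l.1.map (fun i => UniversalEnvelopingAlgebra.ι K (b i))).prod

/-- TASK LREL: the relations, in an associative algebra. -/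
def S_LREL : Prop := ∀ (F : Type) [Field F] (n : ℕ) (Bs : Set (FreeMagma (Fin n)))
  (nf : FreeMagma (Fin n) → ℕ × List (ℤ × FreeMagma (Fin n))) (f : ℕ → ℕ × List (ℤ × ℕ)),
  (∀ w, f (code w) = ((nf w).1, (nf w).2.map (fun p => (p.1, code p.2)))) →
  ∀ (A' : Type) [Ring A'] [Algebra F A'] (c : GD n → A'),
    (∀ i, ev c (relL n (fun k => ∃ w ∈ Bs, code w = k) f i) = 0) ↔
      (∀ w, ((nf w).1 : F) • lev (fun i => c (.inl i)) w =
        ((nf w).2.map (fun p => (p.1 : F) • lev (fun i => c (.inl i)) p.2)).sum) ∧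
      (∀ i, Commute (c (.inl i)) (c (.inr 0))) ∧
      (∀ ws : List (FreeMagma (Fin n)), (∀ w ∈ ws, w ∈ Bs) →
        (ws.map code).Pairwise (· ≤ ·) → ∀ m : ℕ,
        c (.inr 1) * (ws.map (lev (fun i => c (.inl i)))).prod * c (.inr 0) ^ m * c (.inr 2) =
          if sqc (Encodable.encode (ws.map code)) m then 1 else 0)

/-- TASK LHOM: the relations of the first kind give a homomorphism from `L`. -/
def S_LHOM : Prop := ∀ (F L : Type) [Field F] [LieRing L] [LieAlgebra F L] (n : ℕ)
  (a : Fin n → L) (Bs : Set (FreeMagma (Fin n)))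
  (nf : FreeMagma (Fin n) → ℕ × List (ℤ × FreeMagma (Fin n))) (f : ℕ → ℕ × List (ℤ × ℕ)),
  LRB F a Bs nf f → ∀ (A' : Type) [Ring A'] [Algebra F A'] (c : Fin n → A'),
    (∀ w, ((nf w).1 : F) • lev c w = ((nf w).2.map (fun p => (p.1 : F) • lev c p.2)).sum) →
    ∃ θ : L →ₗ⁅F⁆ A', ∀ i, θ (a i) = c i

/-- TASK LALG: Part I for Lie algebras. -/
def S_LALG : Prop := ∀ (F L : Type) [Field F] [LieRing L] [LieAlgebra F L] (n : ℕ)
  (a : Fin n → L) (Bs : Set (FreeMagma (Fin n)))
  (nf : FreeMagma (Fin n) → ℕ × List (ℤ × FreeMagma (Fin n))) (f : ℕ → ℕ × List (ℤ × ℕ)),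
  LRB F a Bs nf f →
  IsSimpleRing (CC F (relL n (fun k => ∃ w ∈ Bs, code w = k) f)) ∧
  (∀ z : CC F (relL n (fun k => ∃ w ∈ Bs, code w = k) f), (∀ c, z * c = c * z) →
    ∃ r : F, algebraMap F (CC F (relL n (fun k => ∃ w ∈ Bs, code w = k) f)) r = z) ∧
  (∀ (K : Type) [Fintype K] [DecidableEq K], ∃ tp tp' : K → FreeAlgebra F (GD n),
    Orth (fun j => RingQuot.mkAlgHom F (relC F (relL n (fun k => ∃ w ∈ Bs, code w = k) f)) (tp j))
      (fun j => RingQuot.mkAlgHom F (relC F (relL n (fun k => ∃ w ∈ Bs, code w = k) f)) (tp' j))) ∧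
  ∃ φ : L →ₗ⁅F⁆ CC F (relL n (fun k => ∃ w ∈ Bs, code w = k) f), Function.Injective φ

/-- Target. -/
def S_MAIN : Prop := ∀ (F L : Type) [Field F] [LieRing L] [LieAlgebra F L] (n : ℕ)
  (a : Fin n → L) (Bs : Set (FreeMagma (Fin n)))
  (nf : FreeMagma (Fin n) → ℕ × List (ℤ × FreeMagma (Fin n))) (f : ℕ → ℕ × List (ℤ × ℕ)),
  LRB F a Bs nf f →
  ∃ (g : Type) (_ : LieRing g) (_ : LieAlgebra F g), LieFP F g ∧ LieAlgebra.IsSimple F g ∧
    ∃ φ : L →ₗ⁅F⁆ g, Function.Injective φ

end Y208.LQ
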