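import Pool.Agent.Y208.LQ.Asm
import Pool.Agent.Y208.LQ.LALG
import Pool.Agent.Y547.LQ.J1a
import Pool.Agent.Y547.LQ.J1b
import Pool.Agent.Y547.LQ.Ctr
import Pool.Agent.Y839.LQ.STW
import Pool.Agent.Y839.LQ.TFP
import Pool.Agent.Y366.LQ.STF
import Pool.Agent.Y366.LQ.GLS
import Pool.Agent.Y351.LQ.PBWB
import Pool.Agent.Y65.LQ.Act
import Pool.Agent.Y65.LQ.Deep
import Pool.Agent.Y65.LQ.Clo
import Pool.Agent.Y571.LQ.ISO
import Pool.Agent.Y574.LQ.Stk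
import Pool.Agent.Y899.LQ.LRel
import Pool.Agent.Y899.LQ.LHom
import Pool.Agent.Y968.LQ.Cen
import Pool.Agent.Y839.LQ.RCOMP

/-! The theorem. -/

set_option autoImplicit false

namespace Y208.LQ

theorem t_SIMP' : S_SIMP :=
  t_SIMP Pool.Agent.Y65.LQ.t_ACT Pool.Agent.Y65.LQ.t_DEEP
    (Pool.Agent.Y571.LQ.t_ISO Pool.Agent.Y65.LQ.t_CLO)
    (Pool.Agent.Y547.LQ.t_CTR Pool.Agent.Y65.LQ.t_ACT Pool.Agent.Y65.LQ.t_CLO)

theorem t_STF' : S_STF := Y366.LQ.F.t_STF Pool.Agent.Y839.LQ.t_STW Pool.Agent.Y574.LQ.t_STK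

theorem t_LALG' : S_LALG :=
  t_LALG Pool.Agent.Y351.LQ.t_PBWB Y899.LQ.t_LREL Y899.LQ.t_LHOM

/-- Every finitely generated Lie algebra with a recursive basis embeds in a simple finitely
presented Lie algebra. -/
theorem t_main : S_MAIN :=
  t_MAIN Pool.Agent.Y547.LQ.t_J1a Pool.Agent.Y547.LQ.t_J1b t_SIMP' t_STF' Y366.LQ.t_GLS
    Pool.Agent.Y839.LQ.t_TFP Pool.Agent.Y968.LQ.t_CEN Pool.Agent.Y839.LQ.t_RCOMP t_LALG'

end Y208.LQ
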