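import Pool.Agent.Y208.LQ.CYC

/-! Assembly. -/

set_option autoImplicit false

open scoped TensorProduct

namespace Y208.LQ

open Pool.SF

attribute [local instance 100] LieRing.ofAssociativeRing

theorem t_SIMP (h1 : S_ACT) (h2 : S_DEEP) (h3 : S_ISO) (h4 : S_CTR) : S_SIMP := by
  intro F B _ _ _ _ w
  refine ⟨⟨⟨fun J => ?_⟩⟩, fun z hz => h4 F B w z hz⟩
  by_cases hJ : ∃ T ∈ J, T ≠ 0
  · right
    obtain ⟨T, hT, hT0⟩ := hJ
    obtain ⟨ℓ, hℓ⟩ := h1 F B w T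
    obtain ⟨G, hG, hGl, hne⟩ := h2 F B w T hT0 ℓ ℓ
    have h5 := hℓ 0 G (by simpa using hG) (by omega)
    have h6 := h3 F B w J (tyL G) (T * UL w G) (J.mul_mem_right _ _ hT) hne h5
    exact (TwoSidedIdeal.one_mem_iff J).1 h6
  · left
    push Not at hJ
    rw [eq_bot_iff]
    intro x hx
    rw [TwoSidedIdeal.mem_bot]
    exact hJ x hx

theorem isCentral_of {F B : Type} [Field F] [Ring B] [Algebra F B]
    (h : ∀ z : B, (∀ c, z * c = c * z) → ∃ r : F, algebraMap F B r = z) :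
    Algebra.IsCentral F B := by
  refine ⟨fun z hz => ?_⟩
  rw [Subalgebra.mem_center_iff] at hz
  obtain ⟨r, rfl⟩ := h z (fun c => (hz c).symm)
  exact Algebra.mem_bot.2 ⟨r, rfl⟩

theorem t_MAIN (hJ1a : S_J1a) (hJ1b : S_J1b) (hSIMP : S_SIMP) (hSTF : S_STF) (hGLS : S_GLS)
    (hTFP : S_TFP) (hCEN : S_CEN) (hRCOMP : S_RCOMP) (hLALG : S_LALG) : S_MAIN := by
  intro F L _ _ _ n a Bs nf f hL
  obtain ⟨hs, hc, hO, φ, hφ⟩ := hLALG F L n a Bs nf f hL
  obtain ⟨S, _, _, hSfp, hSs, hSc, ψ, hψ⟩ := hCEN F (GD n)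
    (relL n (fun k => ∃ w ∈ Bs, code w = k) f) (hRCOMP n _ f hL.comp hL.compf) hs hc hO
  obtain ⟨hBfp, ⟨w⟩⟩ := hJ1a F
  have : Nontrivial (BA F) := hJ1b F
  obtain ⟨hBs, hBc⟩ := hSIMP F (BA F) w
  have : Algebra.IsCentral F (BA F) := isCentral_of hBc
  have : Algebra.IsCentral F S := isCentral_of hSc
  have hRs : IsSimpleRing (BA F ⊗[F] S) := Pool.Agent.Helper18.Br.isSimple_tensor
  have hRc : Algebra.IsCentral F (BA F ⊗[F] S) := Pool.Agent.Helper18.Br.isCentral_tensor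
  obtain ⟨wB⟩ := sw_of_SwA w
  have hcyc : Cyc F (BA F ⊗[F] S) := t_CYC F _ (sw_tensor wB)
  have hfp : LieFP F (Matrix (Fin 5) (Fin 5) (BA F ⊗[F] S)) :=
    hSTF F _ hcyc (hTFP F (BA F) S hBfp hSfp)
  obtain ⟨h, _, _, π, hπs, hπ0, hhfp, hhs⟩ := hGLS F (BA F ⊗[F] S) (fun z hz => by
    have h7 : z ∈ Subalgebra.center F (BA F ⊗[F] S) :=
      Subalgebra.mem_center_iff.2 (fun c => (hz c).symm)
    obtain ⟨r, hr⟩ := Algebra.mem_bot.1 (hRc.out h7)
    exact ⟨r, hr⟩) hcyc.1 hfp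
  -- the embedding of the algebra in the corner of the matrices
  let ι1 : L →ₗ[F] Matrix (Fin 5) (Fin 5) (BA F ⊗[F] S) :=
    (Matrix.singleLinearMap F (0 : Fin 5) (0 : Fin 5)).comp
      ((Algebra.TensorProduct.includeRight : S →ₐ[F] BA F ⊗[F] S).toLinearMap.comp
        (ψ.toLinearMap.comp (φ : L →ₗ[F] CC F _)))
  have hι1 : ∀ x, ι1 x = Matrix.single 0 0 ((1 : BA F) ⊗ₜ[F] ψ (φ x)) := fun x => rfl
  have hbr : ∀ x y, ι1 ⁅x, y⁆ = ⁅ι1 x, ι1 y⁆ := by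
    intro x y
    rw [hι1, hι1, hι1, LieHom.map_lie, LieRing.of_associative_ring_bracket,
      LieRing.of_associative_ring_bracket, Matrix.single_mul_single_same,
      Matrix.single_mul_single_same, map_sub, map_mul, map_mul, TensorProduct.tmul_sub,
      Algebra.TensorProduct.tmul_mul_tmul, Algebra.TensorProduct.tmul_mul_tmul, one_mul]
    exact map_sub (Matrix.singleLinearMap F (0 : Fin 5) (0 : Fin 5)) _ _
  let ι2 : L →ₗ⁅F⁆ Matrix (Fin 5) (Fin 5) (BA F ⊗[F] S) :=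
    { ι1 with map_lie' := fun {x y} => hbr x y }
  refine ⟨h, inferInstance, inferInstance, hhfp, hhs, π.comp ι2, ?_⟩
  rw [injective_iff_map_eq_zero]
  intro x hx
  have h8 : π (ι2 x) = 0 := hx
  obtain ⟨r, hr⟩ := (hπ0 _).1 h8
  have h9 : ι2 x = Matrix.single 0 0 ((1 : BA F) ⊗ₜ[F] ψ (φ x)) := rfl
  rw [h9] at hr
  have h10 := congrFun (congrFun hr 1) 1
  have h11 := congrFun (congrFun hr 0) 0
  rw [Matrix.single_apply_of_ne _ _ _ _ _ (by simp)] at h10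
  rw [Matrix.single_apply_same] at h11
  rw [Matrix.algebraMap_matrix_apply, if_pos rfl] at h10 h11
  rw [← h10] at h11
  have h12 : ψ (φ x) = 0 := by
    have hinj : Function.Injective (Algebra.TensorProduct.includeRight : S →ₐ[F] BA F ⊗[F] S) :=
      RingHom.injective (Algebra.TensorProduct.includeRight : S →ₐ[F] BA F ⊗[F] S).toRingHom
    apply hinj
    rw [map_zero]
    exact h11
  have h13 : φ x = 0 := hψ (by rw [h12, map_zero])
  exact hφ (by rw [h13, map_zero])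

end Y208.LQ
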