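import Pool.Agent.Y208.LQ.Bas
import Pool.Agent.Helper18.Br.TensorCSA

/-! A swindle kills the first cyclic homology. -/

set_option autoImplicit false

open scoped TensorProduct

namespace Y208.LQ

theorem t_CYC : S_CYC := by
  intro F R _ _ _ ⟨w⟩
  have hΦs : ∀ a, w.s * w.Φ a * w.s' = w.Φ a - w.e * a * w.e' := fun a => by
    rw [eq_sub_iff_add_eq, add_comm]; exact (w.Φe a).symm
  have hperf : ∀ r : R, r = (w.e' * (w.e * r) - w.e * r * w.e') +
      (w.s' * (w.s * w.Φ r) - w.s * w.Φ r * w.s') := by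
    intro r
    rw [← mul_assoc, w.ee, one_mul, ← mul_assoc, w.Φl, hΦs]
    abel
  refine ⟨?_, ?_⟩
  · rw [eq_top_iff]
    intro r _
    rw [hperf r]
    exact Submodule.add_mem _ (Submodule.subset_span ⟨_, _, rfl⟩) (Submodule.subset_span ⟨_, _, rfl⟩)
  · intro M _ _ f hanti hcyc
    have h3 : ∀ x y z, f (x * y) z + f (y * z) x + f (z * x) y = 0 := by
      intro x y z
      rw [hcyc x y z, hanti (y * z) x, hanti (z * x) y]
      abel
    let g : R →ₗ[F] M :=
      (f w.e').comp (LinearMap.mulLeft F w.e) + (f w.s').comp ((LinearMap.mulLeft F w.s).comp w.Φ)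
    have hg : ∀ r, g r = f w.e' (w.e * r) + f w.s' (w.s * w.Φ r) := fun r => rfl
    refine ⟨g, fun a b => ?_⟩
    have e1 : f w.e' (w.e * (a * b)) = f a b + f (b * w.e') (w.e * a) := by
      have := h3 w.e' (w.e * a) b
      rw [← mul_assoc w.e', w.ee, one_mul, hanti (w.e * a * b) w.e'] at this
      rw [← mul_assoc w.e]
      have h := this
      rw [add_right_comm] at h
      rw [← sub_eq_add_neg, sub_eq_zero] at h
      exact h.symm
    have e2 : f w.e' (w.e * (b * a)) = f (w.e * a * w.e') (w.e * b * w.e') + f (b * w.e') (w.e * a) := by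
      have := h3 (w.e * a) w.e' (w.e * b * w.e')
      have h4 : w.e' * (w.e * b * w.e') = b * w.e' := by
        rw [mul_assoc w.e, ← mul_assoc w.e', w.ee, one_mul]
      have h5 : w.e * b * w.e' * (w.e * a) = w.e * (b * a) := by
        rw [mul_assoc (w.e * b), ← mul_assoc w.e', w.ee, one_mul, mul_assoc]
      rw [h4, h5, hanti (w.e * (b * a)) w.e', ← sub_eq_add_neg, sub_eq_zero] at this
      exact this.symm
    have e3 : f w.s' (w.s * w.Φ (a * b)) = f (w.Φ a) (w.Φ b) + f (w.Φ b * w.s') (w.s * w.Φ a) := by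
      have := h3 w.s' (w.s * w.Φ a) (w.Φ b)
      rw [← mul_assoc w.s', w.Φl, mul_assoc w.s, ← w.Φm, hanti (w.s * w.Φ (a * b)) w.s',
        add_right_comm, ← sub_eq_add_neg, sub_eq_zero] at this
      exact this.symm
    have e4 : f w.s' (w.s * w.Φ (b * a)) = f (w.s * w.Φ a * w.s') (w.s * w.Φ b * w.s') +
        f (w.Φ b * w.s') (w.s * w.Φ a) := by
      have := h3 (w.s * w.Φ a) w.s' (w.s * w.Φ b * w.s')
      have h4 : w.s' * (w.s * w.Φ b * w.s') = w.Φ b * w.s' := by
        rw [← mul_assoc, ← mul_assoc, w.Φl]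
      have h5 : w.s * w.Φ b * w.s' * (w.s * w.Φ a) = w.s * w.Φ (b * a) := by
        rw [mul_assoc (w.s * w.Φ b), ← mul_assoc w.s', w.Φl, mul_assoc, ← w.Φm]
      rw [h4, h5, hanti (w.s * w.Φ (b * a)) w.s', ← sub_eq_add_neg, sub_eq_zero] at this
      exact this.symm
    have hz : ∀ a b, f (w.e * a * w.e') (w.s * w.Φ b * w.s') = 0 := by
      intro a b
      have := h3 w.e (a * w.e') (w.s * w.Φ b * w.s')
      have h4 : a * w.e' * (w.s * w.Φ b * w.s') = 0 := by
        rw [mul_assoc w.s, mul_assoc a, ← mul_assoc w.e', w.es, zero_mul, mul_zero]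
      have h5 : w.s * w.Φ b * w.s' * w.e = 0 := by
        rw [mul_assoc (w.s * w.Φ b), w.se, mul_zero]
      rw [h4, h5, map_zero, LinearMap.zero_apply, LinearMap.zero_apply, add_zero, add_zero,
        ← mul_assoc] at this
      exact this
    have hz' : ∀ a b, f (w.s * w.Φ a * w.s') (w.e * b * w.e') = 0 := by
      intro a b
      rw [hanti, hz, neg_zero]
    rw [map_sub, hg, hg, e1, e2, e3, e4]
    have e5 : f (w.Φ a) (w.Φ b) = f (w.e * a * w.e') (w.e * b * w.e') +
        f (w.s * w.Φ a * w.s') (w.s * w.Φ b * w.s') := by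
      have key : f (w.e * a * w.e' + w.s * w.Φ a * w.s') (w.e * b * w.e' + w.s * w.Φ b * w.s') =
          f (w.e * a * w.e') (w.e * b * w.e') +
            f (w.s * w.Φ a * w.s') (w.s * w.Φ b * w.s') := by
        simp only [map_add, LinearMap.add_apply, hz, hz', add_zero, zero_add]
      rw [← w.Φe a, ← w.Φe b] at key
      exact key
    rw [e5]
    abel

/-- The swindle of an algebra with the structure `SwA`. -/
theorem sw_of_SwA {F B : Type} [Field F] [Ring B] [Algebra F B] (w : SwA F B) :
    Nonempty (Sw F B) := by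
  have hs's : w.s' * w.s = q w := w.ss
  refine ⟨{
    e := w.e
    e' := w.e'
    s := w.s
    s' := w.s'
    Φ := (LinearMap.mulRight F (q w)).comp w.φ.toLinearMap
    ee := w.ee
    es := w.es
    se := w.se
    Φl := fun a => ?_
    Φr := fun a => ?_
    Φm := fun a b => ?_
    Φe := fun a => ?_ }⟩
  · show w.s' * w.s * (w.φ a * q w) = w.φ a * q w
    rw [hs's, ← mul_assoc, ← φ_q, mul_assoc, q_q]
  · show w.φ a * q w * (w.s' * w.s) = w.φ a * q w
    rw [hs's, mul_assoc, q_q]
  · show w.φ (a * b) * q w = w.φ a * q w * (w.φ b * q w)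
    rw [map_mul, mul_assoc, mul_assoc, ← mul_assoc (q w), ← φ_q, mul_assoc (w.φ b), q_q]
  · show w.φ a * q w = w.e * a * w.e' + w.s * (w.φ a * q w) * w.s'
    have h1 : w.φ a * q w = w.φ a * (w.e * w.e') + w.φ a * (w.s * w.s') := by
      rw [← mul_add]; rfl
    have h2 : w.s * (w.φ a * q w) * w.s' = w.φ a * (w.s * w.s') := by
      rw [mul_assoc, mul_assoc, q_s', ← mul_assoc, ← w.φs, mul_assoc]
    rw [h2, h1, ← mul_assoc, w.φe]

/-- A swindle on a tensor product. -/
theorem sw_tensor {F B S : Type} [Field F] [Ring B] [Algebra F B] [Ring S] [Algebra F S]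
    (w : Sw F B) : Nonempty (Sw F (B ⊗[F] S)) := by
  refine ⟨{
    e := w.e ⊗ₜ 1
    e' := w.e' ⊗ₜ 1
    s := w.s ⊗ₜ 1
    s' := w.s' ⊗ₜ 1
    Φ := TensorProduct.map w.Φ LinearMap.id
    ee := ?_
    es := ?_
    se := ?_
    Φl := fun a => ?_
    Φr := fun a => ?_
    Φm := fun a b => ?_
    Φe := fun a => ?_ }⟩
  · rw [Algebra.TensorProduct.tmul_mul_tmul, w.ee, one_mul]; rfl
  · rw [Algebra.TensorProduct.tmul_mul_tmul, w.es, TensorProduct.zero_tmul]
  · rw [Algebra.TensorProduct.tmul_mul_tmul, w.se, TensorProduct.zero_tmul]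
  · induction a using TensorProduct.induction_on with
    | zero => rw [map_zero, mul_zero]
    | tmul x y =>
      rw [TensorProduct.map_tmul, Algebra.TensorProduct.tmul_mul_tmul,
        Algebra.TensorProduct.tmul_mul_tmul, w.Φl, one_mul, one_mul]
    | add x y hx hy => rw [map_add, mul_add, hx, hy]
  · induction a using TensorProduct.induction_on with
    | zero => rw [map_zero, zero_mul]
    | tmul x y =>
      rw [TensorProduct.map_tmul, Algebra.TensorProduct.tmul_mul_tmul,
        Algebra.TensorProduct.tmul_mul_tmul, w.Φr, one_mul, mul_one]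
    | add x y hx hy => rw [map_add, add_mul, hx, hy]
  · induction a using TensorProduct.induction_on with
    | zero => rw [zero_mul, map_zero, zero_mul]
    | add x y hx hy => rw [add_mul, map_add, hx, hy, map_add, add_mul]
    | tmul x y =>
      induction b using TensorProduct.induction_on with
      | zero => rw [mul_zero, map_zero, mul_zero]
      | add z t hz ht => rw [mul_add, map_add, hz, ht, map_add, mul_add]
      | tmul z t =>
        rw [Algebra.TensorProduct.tmul_mul_tmul, TensorProduct.map_tmul, TensorProduct.map_tmul,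
          TensorProduct.map_tmul, Algebra.TensorProduct.tmul_mul_tmul, w.Φm]
        rfl
  · induction a using TensorProduct.induction_on with
    | zero => simp
    | tmul x y =>
      rw [TensorProduct.map_tmul]
      simp only [Algebra.TensorProduct.tmul_mul_tmul, one_mul, mul_one, LinearMap.id_apply]
      rw [← TensorProduct.add_tmul, ← w.Φe]
    | add x y hx hy =>
      rw [map_add]
      conv_lhs => rw [hx, hy]
      simp only [mul_add, add_mul]
      abel

end Y208.LQ
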