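import Pool.Agent.Y208.LQ.Bas

/-! Deep forests detect nonzero elements. -/

set_option autoImplicit false

namespace Y208.LQ

section
variable {F B : Type} [Field F] [Ring B] [Algebra F B] (w : SwA F B)

theorem deep_s (j : ℕ) (T : B) (M : ℕ) (h : T * ph w j (w.s ^ (M + 1)) ≠ 0) (N : ℕ) :
    (∃ m, T * ph w j (w.s ^ m * w.e) ≠ 0) ∨ T * ph w j (w.s ^ (M + N + 1)) ≠ 0 := by
  induction N with
  | zero => right; exact h
  | succ N ih =>
    rcases ih with ih | ih
    · left; exact ih
    · have h1 : w.s ^ (M + N + 1) = w.s ^ (M + N + 1) * w.e * w.e' +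
          w.s ^ (M + N + 1 + 1) * w.s' := by
        have h2 : w.s ^ (M + N + 1) = w.s ^ (M + N + 1) * q w := by
          rw [pow_succ, mul_assoc, s_q]
        conv_lhs => rw [h2]
        rw [q, mul_add, pow_succ w.s (M + N + 1)]
        simp only [mul_assoc]
      by_cases h3 : T * ph w j (w.s ^ (M + N + 1) * w.e) = 0
      · right
        intro h4
        apply ih
        rw [h1, map_add, mul_add, map_mul _ _ w.e', ← mul_assoc, h3, zero_mul, zero_add,
          map_mul _ _ w.s', ← mul_assoc]
        have h5 : M + (N + 1) + 1 = M + N + 1 + 1 := by omega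
        rw [h5] at h4
        rw [h4, zero_mul]
      · left
        exact ⟨_, h3⟩

theorem deep_tree (d : ℕ) : ∀ (j : ℕ) (T : B), T ≠ 0 →
    ∃ t : OT, OT.Deep d t ∧ T * ph w j (U w t) ≠ 0 := by
  induction d with
  | zero =>
    intro j T hT
    exact ⟨.hole, trivial, by rw [U_hole, map_one, mul_one]; exact hT⟩
  | succ d ih =>
    intro j T hT
    have h1 : T = T * ph w j w.e * ph w j w.e' + T * ph w j w.s * ph w j w.s' +
        T * ph w j w.n * ph w j w.n' := by
      have h2 := congrArg (fun x => T * ph w j x) w.one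
      simp only [map_add, map_mul, map_one, mul_one, mul_add, ← mul_assoc] at h2
      exact h2.symm
    by_cases he : T * ph w j w.e = 0
    · by_cases hn : T * ph w j w.n = 0
      · have hs : T * ph w j w.s ≠ 0 := by
          intro hs
          rw [he, hn, hs, zero_mul, zero_mul, zero_mul, add_zero, add_zero] at h1
          exact hT h1
        rcases deep_s w j T 0 (by simpa using hs) d with ⟨m, hm⟩ | h
        · exact ⟨.lf m, trivial, hm⟩
        · refine ⟨.nu (d + 1), le_refl _, ?_⟩
          rw [U_nu, pow_succ, mul_assoc, s_q, ← pow_succ]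
          rw [zero_add] at h
          exact h
      · obtain ⟨l, hl, hl'⟩ := ih j _ hn
        obtain ⟨r, hr, hr'⟩ := ih (j + l.h) _ hl'
        refine ⟨.node l r, ⟨hl, hr⟩, ?_⟩
        rw [U_node, map_mul, map_mul, ← ph_add, ← mul_assoc, ← mul_assoc]
        exact hr'
    · refine ⟨.lf 0, trivial, ?_⟩
      rw [U_lf, pow_zero, one_mul]
      exact he

end

theorem t_DEEP : S_DEEP := by
  intro F B _ _ _ w T hT d K
  have key : ∀ (K j : ℕ) (T : B), T ≠ 0 →
      ∃ G : List OT, (∀ t ∈ G, OT.Deep d t) ∧ G.length = K ∧ T * ph w j (UL w G) ≠ 0 := by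
    intro K
    induction K with
    | zero =>
      intro j T hT
      exact ⟨[], by simp, rfl, by rw [UL_nil, map_one, mul_one]; exact hT⟩
    | succ K ih =>
      intro j T hT
      obtain ⟨t, ht, ht'⟩ := deep_tree w d j T hT
      obtain ⟨G, hG, hGl, hG'⟩ := ih (j + t.h) _ ht'
      refine ⟨t :: G, ?_, by simp [hGl], ?_⟩
      · intro t' ht'
        rcases List.mem_cons.1 ht' with rfl | h
        · exact ht
        · exact hG t' h
      · rw [UL_cons, map_mul, ← ph_add, ← mul_assoc]
        exact hG'
  exact key K 0 T hT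

end Y208.LQ
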