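import Pool.Agent.Y208.LQ.LALG

/-! Reduction to Lie algebras in `Type`. -/

set_option autoImplicit false

namespace Y208.LQ

universe u

/-- value of a Lie monomial, in any universe -/
def value {L : Type u} [LieRing L] {n : ℕ} (a : Fin n → L) : FreeMagma (Fin n) → L
  | .of i => a i
  | .mul x y => ⁅value a x, value a y⁆

theorem value_eq_lev {L : Type} [LieRing L] {n : ℕ} (a : Fin n → L) (w : FreeMagma (Fin n)) :
    value a w = lev a w := by
  induction w using FreeMagma.rec with
  | of i => rfl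
  | mul x y ihx ihy =>
    simp only [lev, value]
    rw [ihx, ihy]

theorem map_value {F : Type} {L1 : Type u} {L2 : Type} [Field F] [LieRing L1] [LieAlgebra F L1]
    [LieRing L2] [LieAlgebra F L2] {n : ℕ} (χ : L1 →ₗ⁅F⁆ L2) (c : Fin n → L1)
    (w : FreeMagma (Fin n)) : χ (value c w) = lev (fun i => χ (c i)) w := by
  induction w using FreeMagma.rec with
  | of i => rfl
  | mul x y ihx ihy =>
    simp only [lev, value]
    rw [LieHom.map_lie, ihx, ihy]

/-- A finitely generated Lie algebra is isomorphic to a Lie algebra in `Type`. -/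
theorem exists_type {F : Type} {L : Type u} [Field F] [LieRing L] [LieAlgebra F L] {n : ℕ}
    (a : Fin n → L) (hgen : LieSubalgebra.lieSpan F L (Set.range a) = ⊤) :
    ∃ (L' : Type) (_ : LieRing L') (_ : LieAlgebra F L'), Nonempty (L ≃ₗ⁅F⁆ L') := by
  let φ : FreeLieAlgebra F (Fin n) →ₗ⁅F⁆ L := FreeLieAlgebra.lift F a
  have hφ : ∀ i, φ (FreeLieAlgebra.of F i) = a i := fun i => FreeLieAlgebra.lift_of_apply a i
  have hr : φ.range = ⊤ := by
    rw [eq_top_iff, ← hgen, LieSubalgebra.lieSpan_le]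
    rintro _ ⟨i, rfl⟩
    exact ⟨FreeLieAlgebra.of F i, hφ i⟩
  refine ⟨FreeLieAlgebra F (Fin n) ⧸ φ.ker, inferInstance, inferInstance, ⟨?_⟩⟩
  refine LieEquiv.trans ?_ φ.quotKerEquivRange.symm
  refine LieEquiv.trans (LieSubalgebra.topEquiv (R := F) (L := L)).symm ?_
  exact LieEquiv.ofEq _ _ (by rw [hr])

end Y208.LQ
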